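import Pool.Agent.Helper33.DZ.Stmts

namespace Pool.Agent.Helper33.DZ

open Polynomial

theorem desc_sv : ∀ (n : ℕ) (P : ℝ[X]), P ≠ 0 → P.support.card = n →
    signVariations P + 1 ≤ P.support.card := by
  intro n
  induction n with
  | zero =>
    intro P hP h
    exfalso
    exact hP (Polynomial.support_eq_empty.mp (Finset.card_eq_zero.mp h))
  | succ n ih =>
    intro P hP h
    have h1 := signVariations_le_eraseLead_succ (P := P)
    by_cases h0 : P.eraseLead = 0
    · have h2 : P = monomial P.natDegree P.leadingCoeff := by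
        have h3 := P.eraseLead_add_monomial_natDegree_leadingCoeff
        rw [h0, zero_add] at h3
        exact h3.symm
      have h4 : signVariations P = 0 := by
        rw [h2]
        exact signVariations_monomial _ _
      rw [h4, h]
      omega
    · have h5 : P.eraseLead.support.card = n := Polynomial.card_support_eraseLead' h
      have h6 := ih P.eraseLead h0 h5
      omega

theorem desc_inv (w : ℕ) (N : Finset ℕ) (a : ℕ → ℝ) (e : ℝ) (he : e * e = 1)
    (hN : ∀ n ∈ N, 2 * n < w) (x : ℝ) (hx : x ≠ 0) :
    (GG w N a e).eval x⁻¹ = e * (x ^ w)⁻¹ * (GG w N a e).eval x := by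
  unfold GG
  rw [Polynomial.eval_finsetSum, Polynomial.eval_finsetSum, Finset.mul_sum]
  apply Finset.sum_congr rfl
  intro n hn
  have h1 := hN n hn
  simp only [Polynomial.eval_mul, Polynomial.eval_add, Polynomial.eval_C, Polynomial.eval_pow,
    Polynomial.eval_X]
  have h2 : x ^ w = x ^ n * x ^ (w - n) := by
    rw [← pow_add]
    congr 1
    omega
  rw [h2, inv_pow, inv_pow]
  have h3 : x ^ n ≠ 0 := pow_ne_zero _ hx
  have h4 : x ^ (w - n) ≠ 0 := pow_ne_zero _ hx
  have h5 : e * (x ^ n * x ^ (w - n))⁻¹ * (a n * (x ^ n + e * x ^ (w - n)))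
      = a n * (e * (x ^ n * (x ^ n)⁻¹) * (x ^ (w - n))⁻¹
        + (e * e) * (x ^ (w - n) * (x ^ (w - n))⁻¹) * (x ^ n)⁻¹) := by
    rw [mul_inv]
    ring
  rw [h5, mul_inv_cancel₀ h3, mul_inv_cancel₀ h4, he]
  ring

theorem st_DESC : ST_DESC := by
  intro w N a e he hN hne
  have hee : e * e = 1 := by
    rcases he with h | h <;> rw [h] <;> norm_num
  have h0 : GG w N a e ≠ 0 := by
    obtain ⟨n, hn, han⟩ := hne
    intro h
    have h1 : (GG w N a e).coeff n = a n := by
      unfold GG
      rw [Polynomial.finsetSum_coeff]
      rw [Finset.sum_eq_single n]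
      · have h2 := hN n hn
        have h3 : n ≠ w - n := by omega
        simp [Polynomial.coeff_X_pow, h3]
      · intro m hm hmn
        have h2 := hN n hn
        have h3 := hN m hm
        have h4 : n ≠ w - m := by omega
        have h5 : n ≠ m := fun h => hmn h.symm
        simp [Polynomial.coeff_X_pow, h4, h5]
      · intro h2
        exact absurd hn h2
    rw [h] at h1
    simp at h1
    exact han h1.symm
  refine ⟨h0, ?_⟩
  intro S hS
  have hsup : (GG w N a e).support ⊆ N ∪ N.image (fun n => w - n) := by
    intro m hm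
    rw [Polynomial.mem_support_iff] at hm
    by_contra hc
    apply hm
    unfold GG
    rw [Polynomial.finsetSum_coeff]
    apply Finset.sum_eq_zero
    intro n hn
    rw [Finset.mem_union, not_or] at hc
    have h1 : m ≠ n := by
      rintro rfl
      exact hc.1 hn
    have h2 : m ≠ w - n := by
      intro h
      exact hc.2 (Finset.mem_image.mpr ⟨n, hn, h.symm⟩)
    simp [Polynomial.coeff_X_pow, h1, h2]
  have hcard : (GG w N a e).support.card ≤ 2 * N.card := by
    calc (GG w N a e).support.card ≤ (N ∪ N.image (fun n => w - n)).card :=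
          Finset.card_le_card hsup
      _ ≤ N.card + (N.image (fun n => w - n)).card := Finset.card_union_le _ _
      _ ≤ N.card + N.card := Nat.add_le_add_left Finset.card_image_le _
      _ = 2 * N.card := by ring
  have hsv := desc_sv _ (GG w N a e) h0 rfl
  have hroots := roots_countP_pos_le_signVariations (P := GG w N a e)
  have hT : 2 * S.card ≤ (GG w N a e).roots.countP (0 < ·) := by
    have hdisj : Disjoint S (S.image (fun x => x⁻¹)) := by
      rw [Finset.disjoint_left]
      intro x hx hx2
      obtain ⟨y, hy, hyx⟩ := Finset.mem_image.mp hx2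
      have h1 := (hS x hx).1
      have h2 := (hS y hy).1
      have h3 : y⁻¹ < 1 := inv_lt_one_of_one_lt₀ h2
      have h4 : y⁻¹ = x := hyx
      linarith
    have hc : (S ∪ S.image (fun x => x⁻¹)).card = 2 * S.card := by
      rw [Finset.card_union_of_disjoint hdisj,
        Finset.card_image_of_injective _ inv_injective]
      ring
    rw [← hc, Multiset.countP_eq_card_filter]
    have hsub : (S ∪ S.image (fun x => x⁻¹)).val ≤
        (GG w N a e).roots.filter (0 < ·) := by
      rw [Multiset.le_iff_subset (Finset.nodup _)]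
      intro x hx
      rw [Multiset.mem_filter, Polynomial.mem_roots h0]
      have hx' : x ∈ S ∪ S.image (fun x => x⁻¹) := hx
      rw [Finset.mem_union] at hx'
      rcases hx' with h | h
      · have h1 := hS x h
        exact ⟨h1.2, by linarith [h1.1]⟩
      · obtain ⟨y, hy, rfl⟩ := Finset.mem_image.mp h
        have h1 := hS y hy
        have hy0 : (0 : ℝ) < y := by linarith [h1.1]
        refine ⟨?_, inv_pos.mpr hy0⟩
        rw [Polynomial.IsRoot.def, desc_inv w N a e hee hN y hy0.ne']
        rw [Polynomial.IsRoot.def.mp h1.2, mul_zero]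
    exact Multiset.card_le_card hsub
  omega

end Pool.Agent.Helper33.DZ
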